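import Mathlib

open Polynomial

namespace Pool.Agent.Results.MP_fcf092_an.Counter

/-- A real polynomial is hyperbolic if it is zero or all its complex zeros are real. -/
def Hyperbolic (p : ℝ[X]) : Prop := p = 0 ∨ ∀ z : ℂ, aeval z p = 0 → z.im = 0

/-- `T = ∑ Q k D ^ k`; on `f` only the terms with `k ≤ deg f` can be nonzero. -/
def Represents (Q : ℕ → ℝ[X]) (T : ℝ[X] →ₗ[ℝ] ℝ[X]) : Prop :=
  ∀ f : ℝ[X], T f = ∑ k ∈ Finset.range (f.natDegree + 1), Q k * derivative^[k] f

/-- The physicists' Hermite polynomials. -/
noncomputable def H : ℕ → ℝ[X]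
  | 0 => 1
  | n + 1 => C 2 * X * H n - derivative (H n)

theorem taylor_formula (f : ℝ[X]) (N : ℕ) (hN : f.natDegree < N) (z c : ℝ) : f.eval (z + c) =
    ∑ k ∈ Finset.range N, c ^ k / k.factorial * (derivative^[k] f).eval z := by
  rw [add_comm z c, ← taylor_eval, eval_eq_sum_range' (n := N) (by rwa [natDegree_taylor])]
  apply Finset.sum_congr rfl
  intro k _
  rw [taylor_coeff, ← factorial_smul_hasseDeriv]
  have : (k.factorial : ℝ) ≠ 0 := by exact_mod_cast k.factorial_ne_zero
  rw [LinearMap.smul_apply, nsmul_eq_mul, eval_mul, eval_natCast]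
  field_simp

noncomputable def QQ (A : ℕ → ℝ[X]) (c : ℝ) (k : ℕ) : ℝ[X] :=
  ∑ j ∈ Finset.range 5, if j ≤ k then A j * (C (c ^ (k - j) / (k - j).factorial) * X ^ (k - j))
    else 0

noncomputable def op (A : ℕ → ℝ[X]) (c : ℝ) : ℝ[X] →ₗ[ℝ] ℝ[X] where
  toFun f := ∑ j ∈ Finset.range 5, A j * (derivative^[j] f).comp (C (1 + c) * X)
  map_add' f g := by
    simp only [iterate_map_add, add_comp, mul_add, Finset.sum_add_distrib]
  map_smul' a f := by
    simp only [iterate_derivative_smul, smul_comp, mul_smul_comm, RingHom.id_apply,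
      Finset.smul_sum]

theorem rep (A : ℕ → ℝ[X]) (c : ℝ) : Represents (QQ A c) (op A c) := by
  intro f
  change ∑ j ∈ Finset.range 5, A j * (derivative^[j] f).comp (C (1 + c) * X) = _
  simp only [QQ, Finset.sum_mul]
  rw [Finset.sum_comm]
  apply Finset.sum_congr rfl
  intro j _
  apply Polynomial.funext
  intro x
  set N := f.natDegree + 1 with hN
  have h1 : ∑ k ∈ Finset.range N, (if j ≤ k then
        A j * (C (c ^ (k - j) / (k - j).factorial) * X ^ (k - j)) else 0) * derivative^[k] f
      = ∑ k ∈ Finset.range (j + N), (if j ≤ k then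
        A j * (C (c ^ (k - j) / (k - j).factorial) * X ^ (k - j)) else 0) * derivative^[k] f := by
    apply Finset.sum_subset
    · intro k hk; simp only [Finset.mem_range] at *; omega
    · intro k _ hk
      rw [iterate_derivative_eq_zero (by simp only [Finset.mem_range] at hk; omega), mul_zero]
  rw [h1, Finset.sum_range_add, Finset.sum_eq_zero (by
    intro k hk
    rw [if_neg (by simp only [Finset.mem_range] at hk; omega), zero_mul]), zero_add]
  have h2 : (derivative^[j] f).natDegree < N :=
    lt_of_le_of_lt (natDegree_iterate_derivative _ _) (by omega)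
  rw [eval_mul, eval_comp, eval_mul, eval_C, eval_X, show (1 + c) * x = x + c * x by ring,
    taylor_formula _ N h2, eval_finsetSum, Finset.mul_sum]
  apply Finset.sum_congr rfl
  intro k _
  rw [if_pos (by omega), Nat.add_sub_cancel_left, add_comm j k, Function.iterate_add_apply]
  simp only [eval_mul, eval_C, eval_pow, eval_X]
  ring

noncomputable def AA : ℕ → ℝ[X]
  | 0 => -1
  | 1 => -X
  | 2 => X ^ 2 - 1
  | 3 => X
  | _ => C (1 / 4)

noncomputable def BB (j : ℕ) : ℝ[X] := C (1 / 2 ^ j) * AA j

theorem QQ_scale (k : ℕ) : C (1 / 2 ^ k) * QQ AA (-2) k = QQ BB (-1) k := by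
  simp only [QQ, Finset.mul_sum]
  apply Finset.sum_congr rfl
  intro j _
  split_ifs with h
  · obtain ⟨m, rfl⟩ := Nat.exists_eq_add_of_le h
    rw [Nat.add_sub_cancel_left, BB]
    apply Polynomial.funext
    intro x
    simp only [eval_mul, eval_C, eval_pow, eval_X]
    rw [show (-2 : ℝ) = 2 * (-1) by norm_num, mul_pow, pow_add]
    field_simp
  · simp

theorem dH (n : ℕ) : derivative (H (n + 1)) = C (2 * (n + 1) : ℝ) * H n := by
  induction n with
  | zero => simp [H]
  | succ n ih =>
    rw [H, derivative_sub, derivative_mul, ih, derivative_mul, derivative_mul]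
    have : derivative (H n) = C 2 * X * H n - H (n + 1) := by rw [H]; ring
    rw [this, derivative_C, derivative_C]
    simp only [derivative_X, Nat.cast_add, Nat.cast_one, map_mul, map_add, map_one]
    ring

theorem NH (n : ℕ) :
    X * derivative (H n) - C (1 / 2) * derivative (derivative (H n)) = C (n : ℝ) * H n := by
  have h := dH n
  rw [H, derivative_sub, derivative_mul, derivative_mul] at h
  simp only [derivative_C, derivative_X, map_mul, map_add, map_one] at h
  have h2 : C (1 / 2 : ℝ) * C 2 = 1 := by rw [← C_mul]; norm_num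
  linear_combination C (1 / 2) * h - (X * derivative (H n) - C (n : ℝ) * H n) * h2

theorem parH (n : ℕ) : (H n).comp (-X) = C ((-1) ^ n) * H n := by
  induction n with
  | zero => simp [H]
  | succ n ih =>
    have h := congrArg derivative ih
    rw [derivative_comp, derivative_mul] at h
    simp only [derivative_neg, derivative_X, derivative_C, zero_mul, zero_add] at h
    rw [H, sub_comp, mul_comp, mul_comp, ih, pow_succ, C_mul]
    simp only [C_comp, X_comp, map_neg, map_one]
    linear_combination h

theorem TH (n : ℕ) : op AA (-2) (H n) = ((-1) ^ n * (n ^ 2 - 1) : ℝ) • H n := by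
  change ∑ j ∈ Finset.range 5, AA j * (derivative^[j] (H n)).comp (C (1 + -2) * X) = _
  have e : (C (1 + -2) * X : ℝ[X]) = -X := by norm_num
  have h1 := NH n
  have h2 := congrArg derivative h1
  have h3 := congrArg derivative h2
  simp only [derivative_sub, derivative_mul, derivative_add, derivative_C, derivative_X, zero_mul,
    zero_add, one_mul] at h2 h3
  have h5 : C (1 / 2 : ℝ) * 2 = 1 := by
    rw [show (2 : ℝ[X]) = C 2 from rfl, ← C_mul]; norm_num
  have h6 : C (1 / 4 : ℝ) = C (1 / 2) * C (1 / 2) := by rw [← C_mul]; norm_num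
  have h4 : -H n + X * derivative (H n) + (X ^ 2 - 1) * derivative (derivative (H n))
      - X * derivative (derivative (derivative (H n)))
      + C (1 / 4) * derivative (derivative (derivative (derivative (H n))))
      = (C (n : ℝ) ^ 2 - 1) * H n := by
    rw [h6]
    linear_combination C (n : ℝ) * h1 + X * h2 - C (1 / 2) * h3
      + (derivative (derivative (H n)) + X * derivative (derivative (derivative (H n)))) * h5
  have h7 := congrArg (fun p : ℝ[X] => p.comp (-X)) h4
  simp only [add_comp, sub_comp, mul_comp, neg_comp, X_comp, C_comp, pow_comp, one_comp,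
    parH] at h7
  rw [e, smul_eq_C_mul]
  simp only [Finset.sum_range_succ, Finset.sum_range_zero, AA, Function.iterate_succ,
    Function.iterate_zero, Function.comp_apply, id, parH, map_mul, map_sub, map_pow, map_one]
    at h7 ⊢
  linear_combination h7

theorem W_eval (f : ℝ[X]) (z : ℂ) : aeval z (op BB (-1) f) =
    -f.coeff 0 - f.coeff 1 * z / 2 + f.coeff 2 * (z ^ 2 - 1) / 2 + f.coeff 3 * (3 * z / 4)
      + f.coeff 4 * (3 / 8) := by
  change aeval z (∑ j ∈ Finset.range 5, BB j * (derivative^[j] f).comp (C (1 + -1) * X)) = _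
  have e : (C (1 + -1) * X : ℝ[X]) = 0 := by norm_num
  simp only [e, comp_zero, ← coeff_zero_eq_eval_zero, coeff_iterate_derivative,
    Finset.sum_range_succ, Finset.sum_range_zero, BB, AA]
  simp [Nat.descFactorial]
  ring

theorem result : ¬ ∀ (T W : ℝ[X] →ₗ[ℝ] ℝ[X]) (Q : ℕ → ℝ[X]) (γ : ℕ → ℝ),
    (∀ n, T (H n) = γ n • H n) → Represents Q T →
    Represents (fun k => C (1 / 2 ^ k) * Q k) W → (∀ n, Hyperbolic (W (X ^ n))) →
    ∀ p, Hyperbolic p → Hyperbolic (W p) := by
  intro h
  have h1 := h (op AA (-2)) (op BB (-1)) (QQ AA (-2)) _ TH (rep _ _)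
    (by simp only [QQ_scale]; exact rep _ _) ?_ (X ^ 2 - 1) ?_
  · have h2 : ∀ z : ℂ, aeval z (op BB (-1) (X ^ 2 - 1)) = (z ^ 2 + 1) / 2 := by
      intro z
      rw [W_eval]
      simp [coeff_one]
      ring
    rcases h1 with h1 | h1
    · have := h2 0
      rw [h1] at this
      norm_num at this
    · have := h1 Complex.I (by rw [h2]; simp)
      simp at this
  · intro n
    by_cases hn : n < 5
    · right
      intro z hz
      rw [W_eval] at hz
      interval_cases n <;> simp [coeff_one, coeff_X] at hz
      · simp [hz]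
      · have : (z - 1) * (z + 1) = 0 := by linear_combination hz
        rcases mul_eq_zero.1 this with h | h
        · rw [show z = 1 by linear_combination h]; simp
        · rw [show z = -1 by linear_combination h]; simp
      · simp [hz]
    · left
      apply map_injective (algebraMap ℝ ℂ) (algebraMap ℝ ℂ).injective
      apply Polynomial.funext
      intro z
      rw [eval_map_algebraMap, W_eval]
      simp only [coeff_X_pow]
      rw [if_neg (by omega), if_neg (by omega), if_neg (by omega), if_neg (by omega),
        if_neg (by omega)]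
      simp
  · right
    intro z hz
    have : (z - 1) * (z + 1) = 0 := by
      simp at hz
      linear_combination hz
    rcases mul_eq_zero.1 this with h | h
    · rw [show z = 1 by linear_combination h]; simp
    · rw [show z = -1 by linear_combination h]; simp

end Pool.Agent.Results.MP_fcf092_an.Counter
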